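import Pool.Agent.R11.StrongU2

/-!
# Loopless graphs with equal `U`-polynomial and different strong `U`-polynomial

The two graphs have the vertices `0, …, 5` and the edges
`01, 02, 03, 03, 04, 12, 14, 15, 23` and `01, 02, 03, 03, 05, 12, 13, 14, 24`.
-/

set_option autoImplicit false

namespace Pool.Agent.Results.MP_062ce2_co.EqualUDifferentStrongU

open MvPolynomial

/-- A multigraph with vertex set `V` and edge set `E` is given by the pair of ends of each edge.
`spanning ends A` is the graph on `V` in which `u ≠ v` are adjacent when some edge of `A` joins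
them; it has the same connected components as the spanning subgraph (V, A). -/
def spanning {V E : Type*} (ends : E → Sym2 V) (A : Finset E) : SimpleGraph V :=
  SimpleGraph.fromEdgeSet {p | ∃ e ∈ A, ends e = p}

/-- The number of vertices of a component of (V, A). -/
noncomputable def vertexCount {V E : Type*} (ends : E → Sym2 V) (A : Finset E)
    (C : (spanning ends A).ConnectedComponent) : ℕ := Nat.card {v : V // v ∈ C.supp}

/-- The number of edges of a component of (V, A): the edges of `A` with an end in it. -/
noncomputable def edgeCount {V E : Type*} (ends : E → Sym2 V) (A : Finset E)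
    (C : (spanning ends A).ConnectedComponent) : ℕ :=
  Nat.card {e : E // e ∈ A ∧ ∃ v ∈ C.supp, v ∈ ends e}

/-- The `U`-polynomial; `X (some n)` is `x_n` and `X none` is `y`.  The exponent of `y - 1` is
`|A| - r(A)` with `r(A) = |V| - k(A)`. -/
noncomputable def UPoly {V E : Type*} [Fintype V] [Fintype E] (ends : E → Sym2 V) :
    MvPolynomial (Option ℕ) ℤ :=
  ∑ A : Finset E, (∏ᶠ C : (spanning ends A).ConnectedComponent,
      X (some (vertexCount ends A C))) *
    (X none - 1) ^ (A.card - (Fintype.card V - Nat.card (spanning ends A).ConnectedComponent))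

/-- The strong `U`-polynomial; `X (i, j)` is `z_{i,j}`. -/
noncomputable def strongUPoly {V E : Type*} [Fintype E] (ends : E → Sym2 V) :
    MvPolynomial (ℕ × ℕ) ℤ :=
  ∑ A : Finset E, ∏ᶠ C : (spanning ends A).ConnectedComponent,
    X (vertexCount ends A C, edgeCount ends A C + 1 - vertexCount ends A C)

/-- Isomorphism of multigraphs. -/
def Isomorphic {V E W F : Type*} (G : E → Sym2 V) (H : F → Sym2 W) : Prop :=
  ∃ (f : V ≃ W) (g : E ≃ F), ∀ e, H (g e) = (G e).map f

theorem degree_eq {G H : Fin 9 → Sym2 (Fin 6)} (f : Fin 6 ≃ Fin 6) (g : Fin 9 ≃ Fin 9)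
    (h : ∀ e, H (g e) = (G e).map f) (v : Fin 6) :
    (Finset.univ.filter (fun e => v ∈ G e)).card =
      (Finset.univ.filter (fun e => f v ∈ H e)).card := by
  refine Finset.card_bij (fun e _ => g e) ?_ (fun a _ b _ hab => g.injective hab) ?_
  · intro e he
    simp only [Finset.mem_filter, Finset.mem_univ, true_and] at he ⊢
    rw [h e, Sym2.mem_map]
    exact ⟨v, he, rfl⟩
  · intro e he
    simp only [Finset.mem_filter, Finset.mem_univ, true_and] at he
    refine ⟨g.symm e, ?_, by simp⟩
    simp only [Finset.mem_filter, Finset.mem_univ, true_and]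
    have h1 := h (g.symm e)
    rw [Equiv.apply_symm_apply] at h1
    rw [h1, Sym2.mem_map] at he
    obtain ⟨w, hw, hfw⟩ := he
    rw [← f.injective hfw]
    exact hw

open Pool.Agent.R11.StrongU in
theorem not_iso : ¬ Isomorphic (ends eG) (ends eH) := by
  rintro ⟨f, g, h⟩
  have hdeg := degree_eq f g h
  have h5 : f 5 = 5 := by
    have h1 := hdeg 5
    have h2 : (Finset.univ.filter (fun e => (5 : Fin 6) ∈ ends eG e)).card = 1 := by decide
    have h3 : ∀ w : Fin 6, (Finset.univ.filter (fun e => w ∈ ends eH e)).card = 1 → w = 5 := by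
      decide
    exact h3 _ (by rw [← h1, h2])
  have h1 : f 1 = 0 := by
    have h2 := h 7
    have h3 : ends eG 7 = s(1, 5) := by decide
    rw [h3, Sym2.map_mk, h5] at h2
    have h4 : ∀ (e : Fin 9) (w : Fin 6), ends eH e = s(w, 5) → w = 0 := by decide
    exact h4 _ _ h2
  have h2 := hdeg 1
  rw [h1] at h2
  revert h2
  decide

/-- There are two loopless multigraphs (with `6` vertices and `9` edges) which are not isomorphic,
have the same `U`-polynomial and have different strong `U`-polynomials. -/
theorem result : ∃ G H : Fin 9 → Sym2 (Fin 6), (∀ e, ¬ (G e).IsDiag) ∧ (∀ e, ¬ (H e).IsDiag) ∧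
    ¬ Isomorphic G H ∧ UPoly G = UPoly H ∧ strongUPoly G ≠ strongUPoly H := by
  refine ⟨Pool.Agent.R11.StrongU.ends Pool.Agent.R11.StrongU.eG,
    Pool.Agent.R11.StrongU.ends Pool.Agent.R11.StrongU.eH, by decide, by decide, not_iso,
    Pool.Agent.R11.StrongU.U_same, Pool.Agent.R11.StrongU.strongU_ne⟩

end Pool.Agent.Results.MP_062ce2_co.EqualUDifferentStrongU
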